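import Mathlib
import Pool.Agent.V11233.XorCA

/-!
# A computable measure with an undecidable limit language under the XOR cellular automaton

The measure is the mixture, over the pairs `(e, k)` such that the `e`-th program halts on the input
`0` within `k` steps, of the uniform distributions on the orbits of the points `X e`.
-/

set_option autoImplicit false

open MeasureTheory Filter Topology

open scoped ENNReal

namespace Pool.Agent.Results.MP_02be1f_lc.LimitLangUndec

open Pool.Agent.V11233.XorCA Nat.Partrec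

/-- The `e`-th program halts on the input `0` within `k` steps, where `m` is the code of `(e, k)`. -/
def halts (m : ℕ) : Bool := (Code.evaln m.unpair.2 (Denumerable.ofNat Code m.unpair.1) 0).isSome

theorem computable_halts : Computable halts := by
  have h1 : Primrec fun m : ℕ => m.unpair.1 := Primrec.fst.comp Primrec.unpair
  have h2 : Primrec fun m : ℕ => m.unpair.2 := Primrec.snd.comp Primrec.unpair
  have h3 : Primrec fun m : ℕ => Denumerable.ofNat Code m.unpair.1 := by
    have := (Primrec.ofNat Code).comp h1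
    exact this
  have h4 : Primrec fun m : ℕ => ((m.unpair.2, Denumerable.ofNat Code m.unpair.1), 0) := by
    have := Primrec.pair (Primrec.pair h2 h3) (Primrec.const 0)
    exact this
  have h5 : Primrec fun m : ℕ =>
      Code.evaln m.unpair.2 (Denumerable.ofNat Code m.unpair.1) 0 := by
    have := Code.primrec_evaln.comp h4
    exact this
  have := (Primrec.option_isSome.comp h5).to_comp
  exact this

theorem exists_halts_iff (c : Code) :
    (∃ m, halts m = true ∧ ex m = Encodable.encode c) ↔ (c.eval 0).Dom := by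
  constructor
  · rintro ⟨m, hm, hm'⟩
    unfold halts at hm
    change m.unpair.1 = _ at hm'
    rw [hm', Denumerable.ofNat_encode] at hm
    obtain ⟨x, hx⟩ := Option.isSome_iff_exists.1 hm
    exact Part.dom_iff_mem.2 ⟨x, Code.evaln_sound hx⟩
  · intro h
    obtain ⟨x, hx⟩ := Part.dom_iff_mem.1 h
    obtain ⟨k, hk⟩ := Code.evaln_complete.1 hx
    refine ⟨Nat.pair (Encodable.encode c) k, ?_, ?_⟩
    · unfold halts
      rw [Nat.unpair_pair, Denumerable.ofNat_encode]
      rw [Option.isSome_iff_exists]
      exact ⟨x, hk⟩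
    · unfold ex
      rw [Nat.unpair_pair]

theorem map_apply_wd (h : ℕ → Bool) (n : ℕ) (w : List Bool) :
    ((meas h).map (F^[n])) (cyl w) =
      ∑' m, (1 / 2 : ℝ≥0∞) ^ (m + 1) * orb (per m) (F^[n] (pt h m)) (cyl w) := by
  rw [meas, mix_map, mix_apply _ _ _ (measurableSet_cyl w)]

theorem iter_false (n : ℕ) : F^[n] (fun _ => false) = fun _ => false := by
  induction n with
  | zero => rfl
  | succ n ih =>
    rw [Function.iterate_succ_apply', ih]
    rfl

theorem sh_mem_cyl_wd (k : ℤ) (j : ℕ) (x : Cfg) : sh k x ∈ cyl (wd j) ↔ Occ j x k := by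
  rw [mem_cyl_wd, Occ.sh, zero_add]

theorem orb_cyl_eq_zero {p : ℕ} {x : Cfg} {j : ℕ} (h : ∀ k, ¬ Occ j x k) :
    orb p x (cyl (wd j)) = 0 := by
  classical
  rw [orb_cyl]
  have : cnt p x (wd j) = 0 := by
    unfold cnt
    rw [Finset.card_eq_zero, Finset.filter_eq_empty_iff]
    intro s _ hs
    exact h _ ((sh_mem_cyl_wd _ _ _).1 hs)
  rw [this]
  simp

theorem not_occ_false {j : ℕ} {k : ℤ} (h : Occ j (fun _ => false) k) : False := by
  have := h 0 (Nat.zero_le _)
  simp at this

/-- If the program does not halt then the word never occurs. -/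
theorem eq_zero_of_not {h : ℕ → Bool} {j : ℕ} (hj : ∀ m, h m = true → ex m ≠ j) (n : ℕ) :
    ((meas h).map (F^[n])) (cyl (wd j)) = 0 := by
  rw [map_apply_wd, ENNReal.tsum_eq_zero]
  intro m
  rw [orb_cyl_eq_zero, mul_zero]
  intro k hk
  unfold pt at hk
  split_ifs at hk with hm
  · exact hj m hm (occ_iter_X hk).1.symm
  · rw [iter_false] at hk
    exact not_occ_false hk

/-- The word occurs in a period of the point. -/
theorem cnt_pos {m n : ℕ} {h : ℕ → Bool} (hm : h m = true) (hn : 2 ^ ex m ∣ n) :
    0 < cnt (per m) (F^[n] (pt h m)) (wd (ex m)) := by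
  classical
  have hpt : pt h m = X (ex m) := by
    unfold pt
    rw [if_pos hm]
  rw [hpt]
  obtain ⟨p, hp⟩ := exists_occ hn
  unfold cnt
  rw [Finset.card_pos]
  have hper : (0 : ℤ) < per m := by exact_mod_cast per_pos m
  have h0 : 0 ≤ p % per m := Int.emod_nonneg _ hper.ne'
  have h1 : p % per m < per m := Int.emod_lt_of_pos _ hper
  refine ⟨(p % per m).toNat, Finset.mem_filter.2 ⟨Finset.mem_range.2 (by omega), ?_⟩⟩
  rw [Int.toNat_of_nonneg h0, sh_mem_cyl_wd]
  have h2 : sh (per m) (F^[n] (X (ex m))) = F^[n] (X (ex m)) := by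
    rw [← iter_sh]
    congr 1
    have := sh_X (ex m)
    rw [per]
    push_cast
    exact this
  have h3 := sh_mul h2 (p / per m)
  rw [← h3, Occ.sh, Int.emod_add_mul_ediv]
  exact hp

/-- If the program halts then the probability of the word does not tend to zero. -/
theorem mem_limitLang {h : ℕ → Bool} {m : ℕ} (hm : h m = true) :
    wd (ex m) ∈ limitLang (meas h) := by
  intro hlim
  set ε : ℝ≥0∞ := (1 / 2 : ℝ≥0∞) ^ (m + 1) * (per m : ℝ≥0∞)⁻¹ with hε
  have hε0 : 0 < ε := by
    rw [hε]
    refine ENNReal.mul_pos (by simp) ?_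
    simp
  have h1 : ∀ᶠ n : ℕ in atTop, ((meas h).map (F^[n])) (cyl (wd (ex m))) < ε :=
    hlim.eventually (gt_mem_nhds hε0)
  obtain ⟨N, hN⟩ := eventually_atTop.1 h1
  have h2 := hN (2 ^ ex m * N) (Nat.le_mul_of_pos_left _ (by positivity))
  have h3 : ε ≤ ((meas h).map (F^[2 ^ ex m * N])) (cyl (wd (ex m))) := by
    rw [map_apply_wd]
    refine le_trans ?_ (ENNReal.le_tsum m)
    rw [hε, orb_cyl]
    have h4 : (1 : ℝ≥0∞) ≤ (cnt (per m) (F^[2 ^ ex m * N] (pt h m)) (wd (ex m)) : ℝ≥0∞) := by
      exact_mod_cast cnt_pos hm (Dvd.intro _ rfl)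
    calc (1 / 2 : ℝ≥0∞) ^ (m + 1) * (per m : ℝ≥0∞)⁻¹
        = (1 / 2 : ℝ≥0∞) ^ (m + 1) * ((per m : ℝ≥0∞)⁻¹ * 1) := by rw [mul_one]
      _ ≤ _ := by gcongr
  exact absurd h2 (not_lt.2 h3)

theorem primrec_wd : Primrec wd := by
  have h1 : Primrec fun j : ℕ => 2 ^ j := by
    have := primrec_pow.comp (Primrec.const 2) Primrec.id
    exact this
  have h2 : Primrec fun j : ℕ => 3 * 2 ^ j := by
    have := Primrec.nat_mul.comp (Primrec.const 3) h1
    exact this
  have h3 : Primrec fun j : ℕ => List.range (3 * 2 ^ j + 1) := by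
    have := Primrec.list_range.comp (Primrec.succ.comp h2)
    exact this
  have a1 : Primrec fun p : ℕ × ℕ => (p.2 == 0) := by
    have := Primrec.beq.comp (Primrec.snd : Primrec (@Prod.snd ℕ ℕ)) (Primrec.const 0)
    exact this
  have a2 : Primrec fun p : ℕ × ℕ => (p.2 == 2 ^ p.1) := by
    have := Primrec.beq.comp (Primrec.snd : Primrec (@Prod.snd ℕ ℕ)) (h1.comp Primrec.fst)
    exact this
  have a3 : Primrec fun p : ℕ × ℕ => (p.2 == 3 * 2 ^ p.1) := by
    have := Primrec.beq.comp (Primrec.snd : Primrec (@Prod.snd ℕ ℕ)) (h2.comp Primrec.fst)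
    exact this
  have a4 : Primrec fun p : ℕ × ℕ => (p.2 == 0 || p.2 == 2 ^ p.1 || p.2 == 3 * 2 ^ p.1) := by
    have := Primrec.or.comp (Primrec.or.comp a1 a2) a3
    exact this
  have := Primrec.list_map h3 a4.to₂
  exact this

/-- There is a computable shift-invariant probability measure whose limit language under the XOR
cellular automaton is not computable. -/
theorem result : ∃ μ : Measure Cfg, IsProbabilityMeasure μ ∧ μ.map shift = μ ∧
    ComputableMeasure μ ∧ ¬ ComputablePred (fun w => w ∈ limitLang μ) := by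
  refine ⟨meas halts, meas_prob _, meas_shift _, meas_computable computable_halts, fun hcp => ?_⟩
  refine ComputablePred.halting_problem 0 ?_
  have hred : (fun c : Code => (c.eval 0).Dom) ≤₀ (fun w => w ∈ limitLang (meas halts)) := by
    refine ⟨fun c => wd (Encodable.encode c), ?_, fun c => ?_⟩
    · have := (primrec_wd.comp (Primrec.encode : Primrec (Encodable.encode : Code → ℕ))).to_comp
      exact this
    · refine (exists_halts_iff c).symm.trans ?_
      constructor
      · rintro ⟨m, hm, hm'⟩
        have := mem_limitLang hm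
        rw [hm'] at this
        exact this
      · intro hmem
        by_contra hcon
        push Not at hcon
        apply hmem
        have : (fun n : ℕ => ((meas halts).map (F^[n])) (cyl (wd (Encodable.encode c)))) =
            fun _ => 0 := funext fun n => eq_zero_of_not hcon n
        rw [this]
        exact tendsto_const_nhds
  exact ComputablePred.computable_of_manyOneReducible hred hcp

end Pool.Agent.Results.MP_02be1f_lc.LimitLangUndec
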