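import Mathlib
import Pool.Agent.V11233.XorCA

/-!
# A computable measure with a non-computable limit point under the XOR cellular automaton

For the mixture of the uniform distributions on the orbits of the points `X j`, the images under the
iterates `F ^ n` have different limits for different `2`-adic limits of `n`. There are uncountably
many of them, but only countably many computable measures.
-/

set_option autoImplicit false

open MeasureTheory Filter Topology

open scoped ENNReal

namespace Pool.Agent.Results.MP_02be1f_lc.LimitPointNoncomp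

open Pool.Agent.V11233.XorCA Nat.Partrec

/-- The computable sequence. -/
def tt : ℕ → Bool := fun _ => true

theorem pt_tt (m : ℕ) : pt tt m = X (ex m) := if_pos rfl

/-- The truncations of a `2`-adic integer. -/
def R (b : ℕ → Bool) (j : ℕ) : ℕ := ∑ i ∈ Finset.range j, (b i).toNat * 2 ^ i

theorem R_succ (b : ℕ → Bool) (j : ℕ) : R b (j + 1) = R b j + (b j).toNat * 2 ^ j :=
  Finset.sum_range_succ _ _

theorem R_lt (b : ℕ → Bool) (j : ℕ) : R b j < 2 ^ j := by
  induction j with
  | zero => simp [R]
  | succ j ih =>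
    rw [R_succ, pow_succ]
    have : (b j).toNat ≤ 1 := Bool.toNat_le _
    nlinarith

theorem R_dvd (b : ℕ → Bool) {i j : ℕ} (h : j ≤ i) : ∃ q, R b i = R b j + 2 ^ j * q := by
  induction i, h using Nat.le_induction with
  | base => exact ⟨0, by simp⟩
  | succ i hi ih =>
    obtain ⟨q, hq⟩ := ih
    obtain ⟨d, rfl⟩ := Nat.exists_eq_add_of_le hi
    refine ⟨q + (b (j + d)).toNat * 2 ^ d, ?_⟩
    rw [R_succ, hq, pow_add]
    ring

/-- The limit point. -/
noncomputable def lim (b : ℕ → Bool) : Measure Cfg := mix per fun m => F^[R b (ex m)] (X (ex m))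

theorem sh_iter (m n : ℕ) : sh (per m) (F^[n] (X (ex m))) = F^[n] (X (ex m)) := by
  rw [← iter_sh]
  congr 1
  have := sh_X (ex m)
  rw [per]
  push_cast
  exact this

theorem orb_iter_eq (m n q : ℕ) :
    orb (per m) (F^[n + 2 ^ ex m * q] (X (ex m))) = orb (per m) (F^[n] (X (ex m))) := by
  rcases iter_X (ex m) (2 ^ ex m * q) with ⟨-, k, hk⟩ | ⟨h, -⟩
  · rw [Function.iterate_add_apply, hk, iter_sh, orb_sh_int (per_pos m) (sh_iter m n)]
  · exact absurd (Dvd.intro _ rfl) h

/-- The subsequence. -/
def φ (b : ℕ → Bool) (i : ℕ) : ℕ := R b i + 2 ^ i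

theorem φ_strictMono (b : ℕ → Bool) : StrictMono (φ b) := by
  refine strictMono_nat_of_lt_succ fun i => ?_
  unfold φ
  rw [R_succ, pow_succ]
  have : 0 < 2 ^ i := by positivity
  omega

theorem φ_eq (b : ℕ → Bool) {i j : ℕ} (h : j ≤ i) : ∃ q, φ b i = R b j + 2 ^ j * q := by
  obtain ⟨q, hq⟩ := R_dvd b h
  obtain ⟨d, rfl⟩ := Nat.exists_eq_add_of_le h
  refine ⟨q + 2 ^ d, ?_⟩
  unfold φ
  rw [hq, pow_add]
  ring

theorem freq_φ (b : ℕ → Bool) (m : ℕ) {i : ℕ} (h : ex m ≤ i) (w : List Bool) :
    freq (per m) (F^[φ b i] (pt tt m)) w = freq (per m) (F^[R b (ex m)] (X (ex m))) w := by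
  obtain ⟨q, hq⟩ := φ_eq b h
  rw [← orb_cyl_toReal, ← orb_cyl_toReal, pt_tt, hq, orb_iter_eq]

theorem mix_ne_top (P : ℕ → ℕ) (hP : ∀ m, 0 < P m) (y : ℕ → Cfg) (w : List Bool) :
    mix P y (cyl w) ≠ ⊤ := by
  have : IsProbabilityMeasure (mix P y) := ⟨mix_univ hP y⟩
  exact measure_ne_top _ _

theorem tendsto_lim (b : ℕ → Bool) (w : List Bool) :
    Tendsto (fun i => ((meas tt).map (F^[φ b i])) (cyl w)) atTop (𝓝 (lim b (cyl w))) := by
  have h1 : ∀ i, ((meas tt).map (F^[φ b i])) (cyl w) =
      mix per (fun m => F^[φ b i] (pt tt m)) (cyl w) := fun i => by rw [meas, mix_map]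
  simp only [h1]
  rw [← ENNReal.tendsto_toReal_iff (fun i => mix_ne_top _ per_pos _ w)
    (show lim b (cyl w) ≠ ⊤ from mix_ne_top _ per_pos _ w)]
  simp only [lim, mix_cyl_toReal _ per_pos]
  refine tendsto_tsum_of_dominated_convergence summable_half (fun m => ?_)
    (Eventually.of_forall fun i m => ?_)
  · refine tendsto_const_nhds.congr' ?_
    filter_upwards [eventually_ge_atTop (ex m)] with i hi
    rw [freq_φ b m hi]
  · rw [Real.norm_of_nonneg (mul_nonneg (by positivity) (freq_nonneg _ _ _))]
    exact mul_le_of_le_one_right (by positivity) (freq_le_one _ _ _)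

/-- Configurations that agree on an interval have images that agree on a shorter interval. -/
theorem iter_agree (n : ℕ) (x y : Cfg) (N : ℕ) (h : ∀ i : ℕ, i < N + n → x i = y i) :
    ∀ i : ℕ, i < N → F^[n] x i = F^[n] y i := by
  induction n generalizing x y with
  | zero => exact h
  | succ n ih =>
    intro i hi
    rw [Function.iterate_succ_apply, Function.iterate_succ_apply]
    refine ih _ _ (fun i' hi' => ?_) i hi
    simp only [F]
    rw [h i' (by omega)]
    have := h (i' + 1) (by omega)
    push_cast at this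
    rw [this]

/-- A word of a configuration. -/
def wordOf (x : Cfg) (N : ℕ) : List Bool := (List.range N).map fun i : ℕ => x (i : ℤ)

theorem mem_cyl_wordOf (x y : Cfg) (N : ℕ) : y ∈ cyl (wordOf x N) ↔ ∀ i : ℕ, i < N → y i = x i := by
  unfold cyl wordOf
  simp

/-- Different `2`-adic integers give different limit points. -/
theorem lim_ne {b b' : ℕ → Bool} (h : b ≠ b') : ∃ w, lim b (cyl w) ≠ lim b' (cyl w) := by
  classical
  obtain ⟨i, hi, hmin⟩ : ∃ i, b i ≠ b' i ∧ ∀ j < i, b j = b' j := by
    have hex : ∃ i, b i ≠ b' i := by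
      by_contra hcon
      push Not at hcon
      exact h (funext hcon)
    exact ⟨Nat.find hex, Nat.find_spec hex, fun j hj => not_not.1 (Nat.find_min hex hj)⟩
  have hR : R b i = R b' i := Finset.sum_congr rfl fun j hj => by
    rw [hmin j (Finset.mem_range.1 hj)]
  have hRlt := R_lt b (i + 1)
  set t : ℕ := 2 ^ (i + 1) - R b (i + 1) with ht
  obtain ⟨m, hm⟩ : ∃ m, ex m = i + 1 := ⟨Nat.pair (i + 1) 0, by simp [ex]⟩
  set x : Cfg := F^[R b (i + 1)] (X (i + 1)) with hx
  set N : ℕ := per m + 3 * 2 ^ (i + 1) + 1 with hN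
  refine ⟨wordOf x (N + t), ?_⟩
  have h1 : 0 < lim b (cyl (wordOf x (N + t))) := by
    rw [lim, mix_apply _ _ _ (measurableSet_cyl _)]
    refine lt_of_lt_of_le ?_ (ENNReal.le_tsum m)
    rw [hm]
    refine ENNReal.mul_pos (by simp) ?_
    rw [orb_cyl]
    refine mul_ne_zero (by simp) ?_
    have : 0 < cnt (per m) x (wordOf x (N + t)) := by
      unfold cnt
      rw [Finset.card_pos]
      refine ⟨0, Finset.mem_filter.2 ⟨Finset.mem_range.2 (per_pos m), ?_⟩⟩
      rw [mem_cyl_wordOf]
      intro i _
      simp [sh]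
    exact_mod_cast this.ne'
  have h2 : lim b' (cyl (wordOf x (N + t))) = 0 := by
    rw [lim, mix_apply _ _ _ (measurableSet_cyl _), ENNReal.tsum_eq_zero]
    intro m'
    rw [orb_cyl]
    have h0 : cnt (per m') (F^[R b' (ex m')] (X (ex m'))) (wordOf x (N + t)) = 0 := by
      unfold cnt
      rw [Finset.card_eq_zero, Finset.filter_eq_empty_iff]
      intro s _ hs
      rw [mem_cyl_wordOf] at hs
      have h3 := iter_agree t _ _ N hs
      -- an occurrence of the word in the image of `x`
      have hdvd : 2 ^ (i + 1) ∣ t + R b (i + 1) := by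
        rw [ht, Nat.sub_add_cancel hRlt.le]
      obtain ⟨p, hp⟩ := exists_occ hdvd
      rw [Function.iterate_add_apply, ← hx] at hp
      have hperiod : sh (per m) (F^[t] x) = F^[t] x := by
        rw [hx, ← Function.iterate_add_apply]
        have := sh_iter m (t + R b (i + 1))
        rw [hm] at this
        exact this
      have hper : (0 : ℤ) < per m := by exact_mod_cast per_pos m
      have g0 : 0 ≤ p % per m := Int.emod_nonneg _ hper.ne'
      have g1 : p % per m < per m := Int.emod_lt_of_pos _ hper
      obtain ⟨p', hp'⟩ := Int.eq_ofNat_of_zero_le g0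
      have hocc : Occ (i + 1) (F^[t] x) p' := by
        have h4 := sh_mul hperiod (p / per m)
        rw [← h4, Occ.sh]
        have : (p' : ℤ) + per m * (p / per m) = p := by
          have h5 := Int.emod_add_mul_ediv p (per m)
          rw [hp'] at h5
          exact h5
        rw [this]
        exact hp
      have hocc' : Occ (i + 1) (F^[t] (sh s (F^[R b' (ex m')] (X (ex m'))))) p' := by
        intro k hk
        rw [← hocc k hk]
        have h6 := h3 (p' + k) (by omega)
        push_cast at h6
        exact h6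
      rw [iter_sh, Occ.sh, ← Function.iterate_add_apply] at hocc'
      obtain ⟨h7, h8⟩ := occ_iter_X hocc'
      rw [← h7, R_succ, ← hR] at h8
      rw [R_succ] at hdvd
      have hpow : 2 ^ (i + 1) = 2 * 2 ^ i := by rw [pow_succ]; ring
      have h2i : 0 < 2 ^ i := by positivity
      have h9 : ∀ c : ℕ, c ≤ 1 → ∀ c' : ℕ, c' ≤ 1 → 2 ^ (i + 1) ∣ t + (R b i + c * 2 ^ i) →
          2 ^ (i + 1) ∣ t + (R b i + c' * 2 ^ i) → c < c' → False := by
        intro c hc c' hc' hd hd' hlt
        have hc0 : c = 0 := by omega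
        have hc1 : c' = 1 := by omega
        subst hc0
        subst hc1
        have hd'' := (Nat.dvd_sub hd' hd)
        have : t + (R b i + 1 * 2 ^ i) - (t + (R b i + 0 * 2 ^ i)) = 2 ^ i := by omega
        rw [this] at hd''
        have := Nat.le_of_dvd h2i hd''
        omega
      have hb : (b i).toNat ≠ (b' i).toNat := by
        intro hcon
        apply hi
        cases hb1 : b i <;> cases hb2 : b' i <;> simp_all
      rcases lt_or_gt_of_ne hb with hlt | hlt
      · exact h9 _ (Bool.toNat_le _) _ (Bool.toNat_le _) hdvd h8 hlt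
      · exact h9 _ (Bool.toNat_le _) _ (Bool.toNat_le _) h8 hdvd hlt
    rw [h0]
    simp
  rw [h2]
  exact h1.ne'

/-- There are countably many computable functions. -/
theorem countable_computable : Countable {f : List Bool × ℕ → ℕ × ℕ // Computable f} := by
  have hex : ∀ f : {f : List Bool × ℕ → ℕ × ℕ // Computable f}, ∃ c : Code, c.eval =
      fun n => Part.bind (Encodable.decode (α := List Bool × ℕ) n : Part (List Bool × ℕ)) fun a =>
        ((f.1 a : Part (ℕ × ℕ))).map Encodable.encode := fun f => Code.exists_code.1 f.2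
  choose c hc using hex
  refine Function.Injective.countable (f := c) fun f g hfg => ?_
  refine Subtype.ext (funext fun a => ?_)
  have h1 := hc f
  rw [hfg, hc g] at h1
  have h2 := congrFun h1 (Encodable.encode a)
  simp only [Encodable.encodek, Part.coe_some, Part.bind_some, Part.map_some, Part.some_inj] at h2
  exact (Encodable.encode_injective h2).symm

theorem exists_not_computable : ∃ b : ℕ → Bool, ¬ ComputableMeasure (lim b) := by
  by_contra hcon
  push Not at hcon
  choose f hf hf' using hcon
  have hinj : Function.Injective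
      (fun b : ℕ → Bool => (⟨f b, hf b⟩ : {f : List Bool × ℕ → ℕ × ℕ // Computable f})) := by
    intro b b' hbb
    have hff : f b = f b' := congrArg Subtype.val hbb
    by_contra hne
    obtain ⟨w, hw⟩ := lim_ne hne
    apply hw
    have hp : IsProbabilityMeasure (lim b) := ⟨mix_univ per_pos _⟩
    have hp' : IsProbabilityMeasure (lim b') := ⟨mix_univ per_pos _⟩
    rw [← ENNReal.toReal_eq_toReal_iff' (measure_ne_top _ _) (measure_ne_top _ _)]
    have h1 : ∀ k : ℕ, |(lim b (cyl w)).toReal - (lim b' (cyl w)).toReal| ≤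
        2 * (1 / 2 : ℝ) ^ k := by
      intro k
      have e1 := hf' b w k
      have e2 := hf' b' w k
      rw [← hff] at e2
      rw [abs_le] at e1 e2 ⊢
      constructor <;> linarith [e1.1, e1.2, e2.1, e2.2]
    have h2 : Tendsto (fun k : ℕ => 2 * (1 / 2 : ℝ) ^ k) atTop (𝓝 (2 * 0)) :=
      (tendsto_pow_atTop_nhds_zero_of_lt_one (by norm_num) (by norm_num)).const_mul 2
    rw [mul_zero] at h2
    have h3 := ge_of_tendsto' h2 h1
    have h4 := abs_eq_zero.1 (le_antisymm h3 (abs_nonneg _))
    linarith
  have hc : Countable (ℕ → Bool) := by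
    have := countable_computable
    exact hinj.countable
  have h1 := Cardinal.mk_le_aleph0_iff.2 hc
  have h2 : Cardinal.mk (ℕ → Bool) = 2 ^ Cardinal.aleph0 := by
    rw [← Cardinal.power_def, Cardinal.mk_bool, Cardinal.mk_nat]
  rw [h2] at h1
  exact absurd h1 (not_le.2 (Cardinal.cantor _))

/-- There is a computable shift-invariant probability measure such that the sequence of its images
under the XOR cellular automaton has a limit point that is not computable. -/
theorem result : ∃ μ : Measure Cfg, IsProbabilityMeasure μ ∧ μ.map shift = μ ∧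
    ComputableMeasure μ ∧ ∃ ν : Measure Cfg, IsProbabilityMeasure ν ∧ ν.map shift = ν ∧
      (∃ φ : ℕ → ℕ, StrictMono φ ∧ ∀ w : List Bool,
        Tendsto (fun i => (μ.map (F^[φ i])) (cyl w)) atTop (𝓝 (ν (cyl w)))) ∧
      ¬ ComputableMeasure ν := by
  obtain ⟨b, hb⟩ := exists_not_computable
  exact ⟨meas tt, meas_prob _, meas_shift _, meas_computable (Computable.const true), lim b,
    ⟨mix_univ per_pos _⟩, mix_shift fun m => sh_iter m _, ⟨φ b, φ_strictMono b, tendsto_lim b⟩, hb⟩

end Pool.Agent.Results.MP_02be1f_lc.LimitPointNoncomp
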